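import Mathlib
import Pool.Agent.W355.FR.Stm

/-!
Project FR (MP_c59389_nt), part ANA: a positive lower bound for
`max(|Δ|,|E₄|³) Im^6` on the upper half plane.
-/

namespace Pool.Agent.W817.FR

open UpperHalfPlane Filter Topology MatrixGroups ModularForm EisensteinSeries
open scoped CongruenceSubgroup

/-- general invariance -/
lemma inv_gen {k : ℕ} (f : ℍ → ℂ) (g : SL(2, ℤ)) (hf : f ∣[(2 * k : ℤ)] g = f) (τ : ℍ) :
    ‖f (g • τ)‖ * (g • τ).im ^ k = ‖f τ‖ * τ.im ^ k := by
  have h := petersson_slash_SL (2 * k : ℤ) f f g τ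
  rw [hf] at h
  have h2 := congrArg norm h
  have hc : ∀ z : ℍ, ‖petersson (2 * k : ℤ) f f z‖ = (‖f z‖ * z.im ^ k) ^ 2 := by
    intro z
    have hz : 0 < z.im := z.im_pos
    rw [petersson, norm_mul, norm_mul, Complex.norm_conj, norm_zpow, Complex.norm_real,
      Real.norm_of_nonneg hz.le, zpow_mul]
    simp only [zpow_natCast]
    rw [show ((2 : ℤ)) = ((2 : ℕ) : ℤ) by norm_num, zpow_natCast]
    ring
  rw [hc, hc] at h2
  have h3 := (sq_eq_sq₀ (by have := τ.im_pos; positivity)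
    (by have := (g • τ).im_pos; positivity)).mp h2
  exact h3.symm

lemma slash_disc (g : SL(2, ℤ)) :
    ModularForm.discriminant ∣[(12 : ℤ)] g = ModularForm.discriminant :=
  SlashInvariantForm.slash_action_generators_SL2Z discriminant_S_invariant discriminant_T_invariant g

lemma slash_E4 (g : SL(2, ℤ)) :
    (⇑ModularForm.E₄) ∣[(4 : ℤ)] g = ⇑ModularForm.E₄ :=
  ModularForm.E₄.slash_action_eq' _ ⟨g, rfl⟩

lemma inv_disc (g : SL(2, ℤ)) (τ : ℍ) :
    ‖ModularForm.discriminant (g • τ)‖ * (g • τ).im ^ 6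
      = ‖ModularForm.discriminant τ‖ * τ.im ^ 6 :=
  inv_gen (k := 6) _ g (by simpa using slash_disc g) τ

lemma inv_E4 (g : SL(2, ℤ)) (τ : ℍ) :
    ‖ModularForm.E₄ (g • τ)‖ * (g • τ).im ^ 2
      = ‖ModularForm.E₄ τ‖ * τ.im ^ 2 :=
  inv_gen (k := 2) _ g (by simpa using slash_E4 g) τ

/-- `E₄ → 1` at the cusp -/
lemma E4_tendsto : Tendsto (fun τ : ℍ => ModularForm.E₄ τ) atImInfty (𝓝 1) := by
  have h0 : (qExpansion 1 ModularForm.E₄).coeff 0 = 1 :=
    EisensteinSeries.E_qExpansion_coeff_zero _ ⟨2, rfl⟩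
  have hanal := ModularFormClass.analyticAt_cuspFunction_zero ModularForm.E₄ one_pos
    one_mem_strictPeriods_SL
  have hper := SlashInvariantFormClass.periodic_comp_ofComplex ModularForm.E₄
    one_mem_strictPeriods_SL
  rw [qExpansion_coeff_zero one_pos hanal hper, ← cuspFunction_apply_zero one_pos hanal hper] at h0
  rw [← h0]
  exact (hanal.continuousAt.tendsto.comp (qParam_tendsto_atImInfty one_pos)).congr
    (fun τ ↦ SlashInvariantFormClass.eq_cuspFunction ModularForm.E₄ τ one_mem_strictPeriods_SL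
      one_ne_zero)

/-- the quantity to be bounded from below -/
noncomputable def N (τ : ℍ) : ℝ :=
  max (‖ModularForm.discriminant τ‖ * τ.im ^ 6) ((‖ModularForm.E₄ τ‖ * τ.im ^ 2) ^ 3)

lemma N_eq (τ : ℍ) : N τ =
    max ‖ModularForm.discriminant τ‖ (‖ModularForm.E₄ τ‖ ^ 3) * τ.im ^ 6 := by
  have : 0 ≤ τ.im ^ 6 := by have := τ.im_pos; positivity
  rw [N, max_mul_of_nonneg _ _ this]
  congr 1
  ring

lemma N_pos (τ : ℍ) : 0 < N τ := by
  have h1 : 0 < ‖ModularForm.discriminant τ‖ := norm_pos_iff.mpr (discriminant_ne_zero τ)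
  have := τ.im_pos
  exact lt_of_lt_of_le (by positivity) (le_max_left _ _)

lemma N_inv (g : SL(2, ℤ)) (τ : ℍ) : N (g • τ) = N τ := by
  rw [N, N, inv_disc, inv_E4]

lemma N_cont : Continuous N := by
  have h1 : Continuous (fun τ : ℍ => ModularForm.discriminant τ) :=
    (CuspForm.discriminant.holo').continuous
  have h2 : Continuous (fun τ : ℍ => ModularForm.E₄ τ) :=
    (ModularForm.E₄.holo').continuous
  unfold N
  have h3 : Continuous (fun τ : ℍ => τ.im) := UpperHalfPlane.continuous_im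
  exact ((h1.norm.mul (h3.pow 6)).max ((h2.norm.mul (h3.pow 2)).pow 3))

theorem P_ANA_proof : Pool.Agent.W355.FR.P_ANA := by
  obtain ⟨C, hC⟩ := ModularGroup.exists_bound_of_invariant (f := fun τ : ℍ => (N τ)⁻¹)
    (N_cont.inv₀ fun τ => (N_pos τ).ne') (by
      have h1 : ∀ᶠ τ : ℍ in atImInfty, (1 / 2 : ℝ) < ‖ModularForm.E₄ τ‖ := by
        have := (E4_tendsto.norm).eventually (lt_mem_nhds (a := (1 / 2 : ℝ)) (by norm_num))
        exact this
      have h2 : ∀ᶠ τ : ℍ in atImInfty, (1 : ℝ) ≤ τ.im := by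
        rw [atImInfty]
        exact (eventually_ge_atTop (1 : ℝ)).comap _
      unfold IsBoundedAtImInfty BoundedAtFilter
      refine Asymptotics.IsBigO.of_bound 8 ?_
      filter_upwards [h1, h2] with τ ha hb
      have hN : (1 / 2 : ℝ) ^ 3 ≤ N τ := by
        refine le_trans ?_ (le_max_right _ _)
        apply pow_le_pow_left₀ (by norm_num)
        have : (1 : ℝ) ≤ τ.im ^ 2 := one_le_pow₀ hb
        nlinarith
      have hp := N_pos τ
      rw [Real.norm_of_nonneg (inv_nonneg.mpr hp.le)]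
      simp only [Pi.one_apply, norm_one, mul_one]
      rw [inv_le_comm₀ hp (by norm_num)]
      linarith [hN])
    (fun g τ => by rw [N_inv])
  have hCpos : 0 < C := lt_of_lt_of_le (norm_pos_iff.mpr (inv_ne_zero (N_pos I).ne')) (hC I)
  refine ⟨C⁻¹, inv_pos.mpr hCpos, fun τ => ?_⟩
  rw [← N_eq]
  have h := hC τ
  have hp := N_pos τ
  rw [Real.norm_of_nonneg (inv_nonneg.mpr hp.le)] at h
  rwa [inv_le_comm₀ hCpos hp]

end Pool.Agent.W817.FR
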